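import Mathlib

/-!
Internal contextual grammars: for every `n` there is a language generated with suffix-closed regular
selection languages which cannot be generated with selection languages accepted by deterministic
finite automata with at most `n` states.
-/

namespace Pool.Agent.Results.MP_47ab97_lc.SuffixNotStates

open Relation

/-- An internal contextual grammar with selection: a finite list of components (selection language,
finite set of contexts) and a finite set of axioms. -/
structure Grammar (V : Type) where
  /-- the components -/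
  comps : List (Set (List V) × Finset (List V × List V))
  /-- the axioms -/
  ax : Finset (List V)

variable {V : Type}

/-- A derivation step. -/
def Grammar.Step (G : Grammar V) (x y : List V) : Prop :=
  ∃ s ∈ G.comps, ∃ x1 x2 x3 u v, x = x1 ++ (x2 ++ x3) ∧ y = x1 ++ (u ++ (x2 ++ (v ++ x3))) ∧
    x2 ∈ s.1 ∧ (u, v) ∈ s.2

/-- The generated language. -/
def Grammar.Lang (G : Grammar V) : Set (List V) := {w | ∃ z ∈ G.ax, ReflTransGen G.Step z w}

/-- The family `IC(F)` of languages over `V`. -/
def IC (F : Set (Set (List V))) : Set (Set (List V)) :=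
  {L | ∃ G : Grammar V, (∀ s ∈ G.comps, s.1 ∈ F) ∧ G.Lang = L}

/-- The regular suffix-closed languages. -/
def SUF (V : Type) : Set (Set (List V)) :=
  {S | Language.IsRegular (show Language V from S) ∧ ∀ x y, x ++ y ∈ S → y ∈ S}

/-- The languages accepted by (total) deterministic finite automata with at most `n` states. -/
def REGZ (V : Type) (n : ℕ) : Set (Set (List V)) :=
  {S | ∃ (σ : Type) (_ : Fintype σ) (M : DFA V σ), Fintype.card σ ≤ n ∧ (M.accepts : Set (List V)) = S}

section Facts

variable [DecidableEq V] {a b c d : V} (n : ℕ)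

/-- The selection language of the wrapping contexts. -/
def S1 (a b : V) (n : ℕ) : Set (List V) :=
  {w | w = [] ∨ ∃ i ≤ n, w = List.replicate i a ++ [b]}

/-- The grammar. -/
def gr (a b c d : V) (n : ℕ) : Grammar V where
  comps := [(S1 a b n, {([c], [d])}), ({[]}, {([], [c]), ([], [d, c])})]
  ax := {List.replicate (2 * n) a ++ [b]}

/-- The weighted count of the letters with at most `n` letters `a` to the right. -/
def F (a c d : V) (n : ℕ) : ℕ → List V → ℤ
  | _, [] => 0
  | k, x :: w => F a c d n k w +
      if w.count a + k ≤ n then (if x = c then 1 else if x = d then -1 else 0) else 0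

lemma F_append (k : ℕ) (u v : List V) :
    F a c d n k (u ++ v) = F a c d n (k + v.count a) u + F a c d n k v := by
  induction u with
  | nil => simp [F]
  | cons x u ih =>
    simp only [List.cons_append, F, ih, List.count_append]
    have : u.count a + v.count a + k = u.count a + (k + v.count a) := by ring
    rw [this]; ring

/-- The invariant. -/
def Inv (a b c d : V) (n : ℕ) (w : List V) : Prop :=
  w.filter (fun x => x = a ∨ x = b) = List.replicate (2 * n) a ++ [b] ∧
    w.count d ≤ w.count c ∧ 0 ≤ F a c d n 0 w

lemma F_zero {w : List V} (hc : c ∉ w) (hd : d ∉ w) (k : ℕ) : F a c d n k w = 0 := by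
  induction w with
  | nil => rfl
  | cons x w ih =>
    simp only [List.mem_cons, not_or] at hc hd
    simp only [F, ih hc.2 hd.2, if_neg (Ne.symm hc.1), if_neg (Ne.symm hd.1), ite_self, add_zero]

lemma no_a_after {x1 x3 : List V} {i m : ℕ} (hab : a ≠ b)
    (h : (x1 ++ ((List.replicate i a ++ [b]) ++ x3)).filter (fun x => x = a ∨ x = b) =
      List.replicate m a ++ [b]) : x3.count a = 0 := by
  have h1 : (x3.filter (fun x => x = a ∨ x = b)) = [] := by
    rcases List.eq_nil_or_concat (x3.filter (fun x => decide (x = a ∨ x = b))) with h2 | ⟨t, z, h2⟩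
    · exact h2
    · exfalso
      rw [List.concat_eq_append] at h2
      rw [List.filter_append, List.filter_append, List.filter_append, h2, ← List.append_assoc,
        ← List.append_assoc] at h
      have h3 := (List.append_inj' h rfl).1
      have h4 : b ∈ List.replicate m a := by
        rw [← h3]
        simp
      exact hab (List.eq_of_mem_replicate h4).symm
  have h2 : (x3.filter (fun x => x = a ∨ x = b)).count a = x3.count a := by
    rw [List.count_filter (by simp)]
  rw [← h2, h1]; rfl

lemma inv_lang (hab : a ≠ b) (hac : a ≠ c) (had : a ≠ d) (hbc : b ≠ c) (hbd : b ≠ d)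
    (hcd : c ≠ d) {w : List V} (hw : w ∈ (gr a b c d n).Lang) : Inv a b c d n w := by
  obtain ⟨z, hz, h⟩ := hw
  have hz' : z = List.replicate (2 * n) a ++ [b] := by simpa [gr] using hz
  subst hz'
  induction h with
  | refl =>
    refine ⟨?_, ?_, ?_⟩
    · simp [List.filter_append]
    · simp [List.count_append, List.count_replicate, had, hbd, hac, hbc]
    · rw [F_zero]
      · simp [hac.symm, hbc.symm]
      · simp [had.symm, hbd.symm]
  | tail _ hs ih =>
    obtain ⟨s, hs, x1, x2, x3, u, v, rfl, rfl, hx2, huv⟩ := hs
    obtain ⟨h1, h2, h3⟩ := ih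
    simp only [gr, List.mem_cons, List.not_mem_nil, or_false] at hs
    rcases hs with rfl | rfl
    · simp only [Finset.mem_singleton, Prod.mk.injEq] at huv
      obtain ⟨rfl, rfl⟩ := huv
      refine ⟨?_, ?_, ?_⟩
      · rw [← h1]
        simp [List.filter_append, hac.symm, had.symm, hbc.symm, hbd.symm]
      · simp only [List.count_append, List.count_cons_self, List.count_nil,
          List.count_cons_of_ne hcd, List.count_cons_of_ne hcd.symm] at h2 ⊢
        omega
      · have hF : ∀ m, F a c d n m [c] = if m ≤ n then 1 else 0 := by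
          intro m; simp [F]
        have hF' : ∀ m, F a c d n m [d] = if m ≤ n then -1 else 0 := by
          intro m; simp [F, hcd.symm]
        rcases hx2 with rfl | ⟨i, hi, rfl⟩
        · simp only [F_append, List.count_append, hF, hF', List.count_cons_of_ne hac.symm,
            List.count_cons_of_ne had.symm, List.count_nil, Nat.zero_add, Nat.add_zero, F] at h3 ⊢
          split_ifs <;> linarith
        · have h4 := no_a_after hab h1
          simp only [F_append, List.count_append, hF, hF', List.count_cons_of_ne hac.symm,
            List.count_cons_of_ne had.symm, List.count_cons_of_ne hab.symm, List.count_nil,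
            Nat.zero_add, Nat.add_zero, h4, List.count_replicate_self] at h3 ⊢
          rw [if_pos hi, if_pos (Nat.zero_le n)]
          linarith
    · simp only [Finset.mem_insert, Finset.mem_singleton, Prod.mk.injEq] at huv
      have hx2' : x2 = [] := hx2
      subst hx2'
      rcases huv with ⟨rfl, rfl⟩ | ⟨rfl, rfl⟩
      · refine ⟨?_, ?_, ?_⟩
        · rw [← h1]
          simp [List.filter_append, hac.symm, hbc.symm]
        · simp only [List.count_append, List.count_cons_self, List.count_nil,
            List.count_cons_of_ne hcd] at h2 ⊢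
          omega
        · simp only [F_append, List.count_append, List.count_cons_of_ne hac.symm,
            List.count_nil, Nat.zero_add, Nat.add_zero, F, if_true] at h3 ⊢
          split_ifs <;> linarith
      · refine ⟨?_, ?_, ?_⟩
        · rw [← h1]
          simp [List.filter_append, hac.symm, hbc.symm, had.symm, hbd.symm]
        · simp only [List.count_append, List.count_cons_self, List.count_nil,
            List.count_cons_of_ne hcd, List.count_cons_of_ne hcd.symm] at h2 ⊢
          omega
        · simp only [F_append, List.count_append, List.count_cons_of_ne hac.symm,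
            List.count_cons_of_ne had.symm, if_neg hcd.symm,
            List.count_nil, Nat.zero_add, Nat.add_zero, F, if_true] at h3 ⊢
          split_ifs <;> linarith

lemma step_wrap {x1 x2 x3 : List V} (h : x2 ∈ S1 a b n) :
    (gr a b c d n).Step (x1 ++ (x2 ++ x3)) (x1 ++ ([c] ++ (x2 ++ ([d] ++ x3)))) :=
  ⟨(S1 a b n, {([c], [d])}), by simp [gr], x1, x2, x3, [c], [d], rfl, rfl, h,
    Finset.mem_singleton_self _⟩

lemma step_c {x1 x3 : List V} : (gr a b c d n).Step (x1 ++ x3) (x1 ++ ([c] ++ x3)) :=
  ⟨({[]}, {([], [c]), ([], [d, c])}), by simp [gr], x1, [], x3, [], [c], rfl, rfl, rfl, by simp⟩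

lemma step_dc {x1 x3 : List V} : (gr a b c d n).Step (x1 ++ x3) (x1 ++ ([d, c] ++ x3)) :=
  ⟨({[]}, {([], [c]), ([], [d, c])}), by simp [gr], x1, [], x3, [], [d, c], rfl, rfl, rfl,
    by simp⟩

/-- The words `a^n c^k a^n b d^k`. -/
def W1 (a b c d : V) (n k : ℕ) : List V :=
  (List.replicate n a ++ List.replicate k c) ++
    ((List.replicate n a ++ [b]) ++ List.replicate k d)

lemma W1_mem (k : ℕ) : W1 a b c d n k ∈ (gr a b c d n).Lang := by
  refine ⟨List.replicate (2 * n) a ++ [b], by simp [gr], ?_⟩
  induction k with
  | zero =>
    have : W1 a b c d n 0 = List.replicate (2 * n) a ++ [b] := by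
      simp only [W1, List.replicate_zero, List.append_nil, ← List.append_assoc,
        List.replicate_append_replicate, two_mul]
    rw [this]
  | succ k ih =>
    refine ih.tail ?_
    have := step_wrap (a := a) (b := b) (c := c) (d := d) n
      (x1 := List.replicate n a ++ List.replicate k c) (x2 := List.replicate n a ++ [b])
      (x3 := List.replicate k d) (Or.inr ⟨n, le_rfl, rfl⟩)
    have e : W1 a b c d n (k + 1) = (List.replicate n a ++ List.replicate k c) ++
        ([c] ++ ((List.replicate n a ++ [b]) ++ ([d] ++ List.replicate k d))) := by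
      simp only [W1, List.replicate_succ' (n := k) (a := c), List.replicate_succ (n := k) (a := d),
        List.append_assoc, List.singleton_append, List.cons_append, List.nil_append]
    rw [e]
    exact this

/-- The words `a^(n-t) c^p a^(n+t) b d^q c^q`. -/
def W2 (a b c d : V) (n t p q : ℕ) : List V :=
  List.replicate (n - t) a ++ ((List.replicate p c ++ (List.replicate (n + t) a ++ ([b] ++
    List.replicate q d))) ++ List.replicate q c)

lemma W2_mem {t : ℕ} (ht : t ≤ n) (p q : ℕ) : W2 a b c d n t p q ∈ (gr a b c d n).Lang := by
  have h0 : ∀ p, W2 a b c d n t p 0 ∈ (gr a b c d n).Lang := by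
    intro p
    refine ⟨List.replicate (2 * n) a ++ [b], by simp [gr], ?_⟩
    induction p with
    | zero =>
      have : W2 a b c d n t 0 0 = List.replicate (2 * n) a ++ [b] := by
        have h1 : 2 * n = (n - t) + (n + t) := by omega
        rw [h1]
        simp only [W2, List.replicate_zero, List.append_nil, List.nil_append, ← List.append_assoc,
          List.replicate_append_replicate]
      rw [this]
    | succ p ih =>
      refine ih.tail ?_
      have := step_c (a := a) (b := b) (c := c) (d := d) n (x1 := List.replicate (n - t) a)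
        (x3 := List.replicate p c ++ (List.replicate (n + t) a ++ [b]))
      have e1 : W2 a b c d n t (p + 1) 0 = List.replicate (n - t) a ++ ([c] ++
          (List.replicate p c ++ (List.replicate (n + t) a ++ [b]))) := by
        simp [W2, List.replicate_succ]
      have e2 : W2 a b c d n t p 0 = List.replicate (n - t) a ++
          (List.replicate p c ++ (List.replicate (n + t) a ++ [b])) := by
        simp [W2]
      rw [e1, e2]
      exact this
  induction q with
  | zero => exact h0 p
  | succ q ih =>
    obtain ⟨z, hz, h⟩ := ih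
    refine ⟨z, hz, h.tail ?_⟩
    have := step_dc (a := a) (b := b) (c := c) (d := d) n
      (x1 := List.replicate (n - t) a ++ (List.replicate p c ++ (List.replicate (n + t) a ++ ([b] ++
        List.replicate q d)))) (x3 := List.replicate q c)
    have e1 : W2 a b c d n t p (q + 1) = (List.replicate (n - t) a ++ (List.replicate p c ++
        (List.replicate (n + t) a ++ ([b] ++ List.replicate q d)))) ++
          ([d, c] ++ List.replicate q c) := by
      simp only [W2, List.replicate_succ' (n := q) (a := d), List.replicate_succ (n := q) (a := c),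
        List.append_assoc, List.singleton_append, List.cons_append, List.nil_append]
    have e2 : W2 a b c d n t p q = (List.replicate (n - t) a ++ (List.replicate p c ++
        (List.replicate (n + t) a ++ ([b] ++ List.replicate q d)))) ++ List.replicate q c := by
      simp only [W2, List.append_assoc]
    rw [e1, e2]
    exact this

lemma last_step {G : Grammar V} {w : List V} (hw : w ∈ G.Lang) :
    w ∈ G.ax ∨ ∃ w' ∈ G.Lang, w' ≠ w ∧ G.Step w' w := by
  obtain ⟨z, hz, h⟩ := hw
  induction h with
  | refl => exact Or.inl hz
  | @tail x y hx hs ih =>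
    by_cases h : x = y
    · subst h; exact ih
    · exact Or.inr ⟨x, ⟨z, hz, hx⟩, h, hs⟩

lemma lem_c {s r R : List V} {n k : ℕ} (hac : a ≠ c) (hR : c ∉ R)
    (h : s ++ c :: r = List.replicate n a ++ (List.replicate k c ++ R)) :
    ∃ k', r = List.replicate k' c ++ R := by
  induction n generalizing s with
  | zero =>
    simp only [List.replicate_zero, List.nil_append] at h
    induction k generalizing s with
    | zero =>
      simp only [List.replicate_zero, List.nil_append] at h
      exact absurd (by rw [← h]; simp) hR
    | succ k ih =>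
      rcases s with _ | ⟨x, s⟩
      · rw [List.replicate_succ] at h
        simp only [List.nil_append, List.cons_append, List.cons.injEq, true_and] at h
        exact ⟨k, h⟩
      · rw [List.replicate_succ] at h
        simp only [List.cons_append, List.cons.injEq] at h
        exact ih h.2
  | succ n ih =>
    rcases s with _ | ⟨x, s⟩
    · rw [List.replicate_succ] at h
      simp only [List.nil_append, List.cons_append, List.cons.injEq] at h
      exact absurd h.1.symm hac
    · rw [List.replicate_succ] at h
      simp only [List.cons_append, List.cons.injEq] at h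
      exact ih h.2

lemma lem_d {m t Q : List V} {k : ℕ} (hQ : d ∉ Q) (h : m ++ d :: t = Q ++ List.replicate k d) :
    ∃ q, m = Q ++ List.replicate q d := by
  induction Q generalizing m with
  | nil =>
    refine ⟨m.length, ?_⟩
    rw [List.nil_append, List.eq_replicate_iff]
    refine ⟨rfl, fun x hx => ?_⟩
    have : x ∈ List.replicate k d := by
      rw [List.nil_append] at h
      rw [← h]; simp [hx]
    exact List.eq_of_mem_replicate this
  | cons x Q ih =>
    rcases m with _ | ⟨y, m⟩
    · simp only [List.nil_append, List.cons_append, List.cons.injEq] at h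
      exact absurd (by rw [h.1]; simp) hQ
    · simp only [List.cons_append, List.cons.injEq] at h
      obtain ⟨q, hq⟩ := ih (fun h' => hQ (List.mem_cons_of_mem _ h')) h.2
      exact ⟨q, by rw [h.1, hq]; rfl⟩

/-- Pumping in a deterministic automaton with at most `n` states. -/
lemma pump {σ : Type} [Fintype σ] (M : DFA V σ) (hM : Fintype.card σ ≤ n) (s0 : σ) (a : V) :
    ∃ t, 1 ≤ t ∧ t ≤ n ∧
      M.evalFrom s0 (List.replicate (n + t) a) = M.evalFrom s0 (List.replicate n a) := by
  obtain ⟨i, j, hij, hf⟩ := Fintype.exists_ne_map_eq_of_card_lt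
    (fun j : Fin (n + 1) => M.evalFrom s0 (List.replicate (j : ℕ) a))
    (by rw [Fintype.card_fin]; omega)
  have key : ∀ i j : ℕ, i < j → j ≤ n →
      M.evalFrom s0 (List.replicate i a) = M.evalFrom s0 (List.replicate j a) →
      ∃ t, 1 ≤ t ∧ t ≤ n ∧
        M.evalFrom s0 (List.replicate (n + t) a) = M.evalFrom s0 (List.replicate n a) := by
    intro i j hij hj hf
    refine ⟨j - i, by omega, by omega, ?_⟩
    have e1 : n + (j - i) = j + (n - i) := by omega
    have e2 : List.replicate n a = List.replicate (i + (n - i)) a := by
      congr 1; omega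
    rw [e1, e2, ← List.replicate_append_replicate, ← List.replicate_append_replicate,
      DFA.evalFrom_of_append, DFA.evalFrom_of_append, hf]
  rcases lt_or_gt_of_ne (fun h => hij (Fin.ext h) : (i : ℕ) ≠ j) with h | h
  · exact key i j h (by omega) hf
  · exact key j i h (by omega) hf.symm

lemma F_rep_c (k m : ℕ) (hac : a ≠ c) :
    F a c d n k (List.replicate m c) = if k ≤ n then (m : ℤ) else 0 := by
  induction m with
  | zero => simp [F]
  | succ m ih =>
    have h0 : (List.replicate m c).count a = 0 := by
      rw [List.count_replicate]; simp [hac.symm]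
    rw [List.replicate_succ, F, ih, h0, Nat.zero_add]
    by_cases h : k ≤ n
    · simp only [h, if_true]; push_cast; ring
    · simp [h]

lemma F_rep_d (k m : ℕ) (had : a ≠ d) (hcd : c ≠ d) :
    F a c d n k (List.replicate m d) = if k ≤ n then -(m : ℤ) else 0 := by
  induction m with
  | zero => simp [F]
  | succ m ih =>
    have h0 : (List.replicate m d).count a = 0 := by
      rw [List.count_replicate]; simp [had.symm]
    rw [List.replicate_succ, F, ih, h0, Nat.zero_add, if_neg hcd.symm]
    by_cases h : k ≤ n
    · simp only [h, if_true]; push_cast; ring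
    · simp [h]

theorem not_states (hab : a ≠ b) (hac : a ≠ c) (had : a ≠ d) (hbc : b ≠ c) (hbd : b ≠ d)
    (hcd : c ≠ d) (G : Grammar V) (hG : ∀ s ∈ G.comps, s.1 ∈ REGZ V n)
    (hL : G.Lang = (gr a b c d n).Lang) : False := by
  -- a word which is no axiom
  obtain ⟨k, hk⟩ : ∃ k, W1 a b c d n k ∉ G.ax := by
    refine ⟨G.ax.sup List.length, fun h => ?_⟩
    have h1 : (W1 a b c d n (G.ax.sup List.length)).length ≤ G.ax.sup List.length :=
      Finset.le_sup (f := List.length) h
    simp only [W1, List.length_append, List.length_replicate, List.length_singleton] at h1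
    omega
  have hmem : W1 a b c d n k ∈ G.Lang := by rw [hL]; exact W1_mem n k
  rcases last_step hmem with h | ⟨w', hw', hne, s, hs, x1, x2, x3, u, v, rfl, hW, hx2, huv⟩
  · exact hk h
  have inv : ∀ w, w ∈ G.Lang → Inv a b c d n w := fun w hw =>
    inv_lang n hab hac had hbc hbd hcd (hL ▸ hw)
  have i1 := inv _ hmem
  have i2 := inv _ hw'
  have hcW : (W1 a b c d n k).count c = k := by
    simp [W1, List.count_append, List.count_replicate, hac, hbc, hcd.symm]
  have hdW : (W1 a b c d n k).count d = k := by
    simp [W1, List.count_append, List.count_replicate, had, hbd, hcd]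
  -- `u` and `v` contain neither `a` nor `b`
  have hlen := congrArg List.length (i1.1.trans i2.1.symm)
  rw [hW] at hlen
  simp only [List.filter_append, List.length_append] at hlen
  have hfu : u.filter (fun x => x = a ∨ x = b) = [] := List.eq_nil_of_length_eq_zero (by omega)
  have hfv : v.filter (fun x => x = a ∨ x = b) = [] := List.eq_nil_of_length_eq_zero (by omega)
  have hu1 : ∀ x ∈ u, x ≠ a ∧ x ≠ b := by
    intro x hx
    have := List.filter_eq_nil_iff.1 hfu x hx
    simpa using this
  have hv1 : ∀ x ∈ v, x ≠ a ∧ x ≠ b := by
    intro x hx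
    have := List.filter_eq_nil_iff.1 hfv x hx
    simpa using this
  have hlet : ∀ x ∈ W1 a b c d n k, x = a ∨ x = b ∨ x = c ∨ x = d := by
    intro x hx
    simp only [W1, List.mem_append, List.mem_singleton] at hx
    rcases hx with (hx | hx) | ((hx | hx) | hx)
    · exact Or.inl (List.eq_of_mem_replicate hx)
    · exact Or.inr (Or.inr (Or.inl (List.eq_of_mem_replicate hx)))
    · exact Or.inl (List.eq_of_mem_replicate hx)
    · exact Or.inr (Or.inl hx)
    · exact Or.inr (Or.inr (Or.inr (List.eq_of_mem_replicate hx)))
  have hu2 : ∀ x ∈ u, x = c ∨ x = d := by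
    intro x hx
    have h1 := hu1 x hx
    rcases hlet x (by rw [hW]; simp [hx]) with h | h | h | h
    · exact absurd h h1.1
    · exact absurd h h1.2
    · exact Or.inl h
    · exact Or.inr h
  have hv2 : ∀ x ∈ v, x = c ∨ x = d := by
    intro x hx
    have h1 := hv1 x hx
    rcases hlet x (by rw [hW]; simp [hx]) with h | h | h | h
    · exact absurd h h1.1
    · exact absurd h h1.2
    · exact Or.inl h
    · exact Or.inr h
  -- the numbers of `c` and `d` in the context agree
  have hcW' := hcW
  have hdW' := hdW
  rw [hW] at hcW' hdW'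
  simp only [List.count_append] at hcW' hdW'
  have j1 := i2.2.1
  simp only [List.count_append] at j1
  have hw2 : (x1 ++ u) ++ (u ++ (x2 ++ (v ++ (v ++ x3)))) ∈ G.Lang := by
    obtain ⟨z, hz, h⟩ := hmem
    exact ⟨z, hz, h.tail ⟨s, hs, x1 ++ u, x2, v ++ x3, u, v, by rw [hW]; simp, rfl, hx2, huv⟩⟩
  have j2 := (inv _ hw2).2.1
  simp only [List.count_append] at j2
  have hij : u.count c + v.count c = u.count d + v.count d := by omega
  have hpos : 1 ≤ u.count c + v.count c := by
    by_contra h0
    apply hne
    have hu0 : u = [] := by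
      rcases u with _ | ⟨x, u⟩
      · rfl
      · exfalso
        rcases hu2 x (by simp) with rfl | rfl
        · simp at h0
        · simp only [List.count_cons_self] at hij; omega
    have hv0 : v = [] := by
      rcases v with _ | ⟨x, v⟩
      · rfl
      · exfalso
        rcases hv2 x (by simp) with rfl | rfl
        · simp at h0
        · simp only [List.count_cons_self] at hij; omega
    rw [hW, hu0, hv0]; rfl
  -- the shape of the word
  have hsh : W1 a b c d n k = List.replicate n a ++ (List.replicate k c ++
      (List.replicate n a ++ ([b] ++ List.replicate k d))) := by simp [W1]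
  have hcR : c ∉ List.replicate n a ++ ([b] ++ List.replicate k d) := by
    simp only [List.mem_append, List.mem_singleton, not_or]
    exact ⟨fun h => hac (List.eq_of_mem_replicate h).symm, fun h => hbc h.symm,
      fun h => hcd (List.eq_of_mem_replicate h)⟩
  have hafter : ∀ s r, s ++ c :: r = W1 a b c d n k → ∃ k', r = List.replicate k' c ++
      (List.replicate n a ++ ([b] ++ List.replicate k d)) := fun s r h =>
    lem_c hac hcR (by rw [h, hsh])
  have hdQ : d ∉ List.replicate n a ++ (List.replicate k c ++ (List.replicate n a ++ [b])) := by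
    simp only [List.mem_append, List.mem_singleton, not_or]
    exact ⟨fun h => had (List.eq_of_mem_replicate h).symm,
      fun h => hcd (List.eq_of_mem_replicate h).symm,
      fun h => had (List.eq_of_mem_replicate h).symm, fun h => hbd h.symm⟩
  have hbefore : ∀ m t, m ++ d :: t = W1 a b c d n k → ∃ q, m = (List.replicate n a ++
      (List.replicate k c ++ (List.replicate n a ++ [b]))) ++ List.replicate q d := fun m t h =>
    lem_d (k := k) hdQ (by rw [h, hsh]; simp)
  have hcount : ∀ m t, m ++ d :: t = W1 a b c d n k → m.count c = k := by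
    intro m t h
    obtain ⟨q, hq⟩ := hbefore m t h
    rw [hq]
    simp [List.count_append, List.count_replicate, hac, hbc, hcd.symm]
  have hbu : b ∉ u := fun h => (hu1 b h).2 rfl
  have hbv : b ∉ v := fun h => (hv1 b h).2 rfl
  have hdu : d ∉ u := by
    intro h
    obtain ⟨u1, u2, hu⟩ := List.append_of_mem h
    have e1 : (x1 ++ u1) ++ d :: (u2 ++ (x2 ++ (v ++ x3))) = W1 a b c d n k := by
      rw [hW, hu]; simp
    have h1 := hcount _ _ e1
    have h2 : (W1 a b c d n k).count c = (x1 ++ u1).count c + (u2.count c + (x2.count c +
        (v.count c + x3.count c))) := by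
      rw [← e1]; simp only [List.count_append, List.count_cons_of_ne hcd.symm]
    have h3 : c ∈ u1 := by
      by_contra h4
      have h5 : u1.count c = 0 := List.count_eq_zero.2 h4
      have h6 : u.count c = 0 := by
        rw [hu]; simp only [List.count_append, List.count_cons_of_ne hcd.symm]; omega
      omega
    obtain ⟨u3, u4, hu3⟩ := List.append_of_mem h3
    obtain ⟨k', hk'⟩ := hafter (x1 ++ u3) (u4 ++ d :: (u2 ++ (x2 ++ (v ++ x3)))) (by
      rw [← e1, hu3]; simp)
    obtain ⟨q, hq⟩ := lem_d (d := d) (m := u4) (t := u2 ++ (x2 ++ (v ++ x3)))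
      (Q := List.replicate k' c ++ (List.replicate n a ++ [b])) (k := k) (by
        simp only [List.mem_append, List.mem_singleton, not_or]
        exact ⟨fun h => hcd (List.eq_of_mem_replicate h).symm,
          fun h => had (List.eq_of_mem_replicate h).symm, fun h => hbd h.symm⟩) (by
        rw [hk']; simp)
    apply hbu
    rw [hu, hu3, hq]
    simp
  have hcv : c ∉ v := by
    intro h
    have hdv : d ∈ v := by
      by_contra h4
      have h5 : v.count d = 0 := List.count_eq_zero.2 h4
      have h6 : u.count d = 0 := List.count_eq_zero.2 hdu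
      omega
    obtain ⟨v1, v2, hv⟩ := List.append_of_mem hdv
    have e1 : (x1 ++ (u ++ (x2 ++ v1))) ++ d :: (v2 ++ x3) = W1 a b c d n k := by
      rw [hW, hv]; simp
    have h1 := hcount _ _ e1
    have h2 : (W1 a b c d n k).count c = (x1 ++ (u ++ (x2 ++ v1))).count c + (v2.count c +
        x3.count c) := by
      rw [← e1]; simp only [List.count_append, List.count_cons_of_ne hcd.symm]
    have h3 : c ∈ v1 := by
      by_contra h4
      have h5 : v1.count c = 0 := List.count_eq_zero.2 h4
      have h6 : v.count c = 0 := by
        rw [hv]; simp only [List.count_append, List.count_cons_of_ne hcd.symm]; omega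
      exact absurd h (List.count_eq_zero.1 h6)
    obtain ⟨v3, v4, hv3⟩ := List.append_of_mem h3
    obtain ⟨k', hk'⟩ := hafter (x1 ++ (u ++ (x2 ++ v3))) (v4 ++ d :: (v2 ++ x3)) (by
      rw [← e1, hv3]; simp)
    obtain ⟨q, hq⟩ := lem_d (d := d) (m := v4) (t := v2 ++ x3)
      (Q := List.replicate k' c ++ (List.replicate n a ++ [b])) (k := k) (by
        simp only [List.mem_append, List.mem_singleton, not_or]
        exact ⟨fun h => hcd (List.eq_of_mem_replicate h).symm,
          fun h => had (List.eq_of_mem_replicate h).symm, fun h => hbd h.symm⟩) (by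
        rw [hk']; simp)
    apply hbv
    rw [hv, hv3, hq]
    simp
  have hu3 : u = List.replicate u.length c := List.eq_replicate_iff.2 ⟨rfl, fun x hx => by
    rcases hu2 x hx with h | h
    · exact h
    · exact absurd (h ▸ hx) hdu⟩
  have hv3 : v = List.replicate v.length d := List.eq_replicate_iff.2 ⟨rfl, fun x hx => by
    rcases hv2 x hx with h | h
    · exact absurd (h ▸ hx) hcv
    · exact h⟩
  generalize hi : u.length = i at hu3
  generalize hj : v.length = j at hv3
  have hij2 : i = j ∧ 1 ≤ i := by
    rw [hu3, hv3] at hij hpos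
    simp [List.count_replicate, hcd, hcd.symm] at hij hpos
    exact ⟨hij, hpos⟩
  obtain ⟨rfl, hi1⟩ := hij2
  obtain ⟨i', rfl⟩ : ∃ i', i = i' + 1 := ⟨i - 1, by omega⟩
  -- the shape of `x2`
  obtain ⟨k', hk'⟩ := hafter (x1 ++ List.replicate i' c)
    (x2 ++ (List.replicate (i' + 1) d ++ x3)) (by
      rw [hW, hu3, hv3, List.replicate_succ' (n := i') (a := c)]; simp)
  obtain ⟨q, hq⟩ := lem_d (d := d) (m := x2) (t := List.replicate i' d ++ x3)
      (Q := List.replicate k' c ++ (List.replicate n a ++ [b])) (k := k) (by
        simp only [List.mem_append, List.mem_singleton, not_or]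
        exact ⟨fun h => hcd (List.eq_of_mem_replicate h).symm,
          fun h => had (List.eq_of_mem_replicate h).symm, fun h => hbd h.symm⟩) (by
        have : x2 ++ d :: (List.replicate i' d ++ x3) =
            x2 ++ (List.replicate (i' + 1) d ++ x3) := by
          rw [List.replicate_succ]; rfl
        rw [this, hk']; simp)
  -- pumping
  obtain ⟨σ, _, M, hM, hMs⟩ := hG s hs
  obtain ⟨t, ht1, htn, ht⟩ := pump n M hM (M.evalFrom M.start (List.replicate k' c)) a
  have hx2' : List.replicate k' c ++ (List.replicate (n + t) a ++ ([b] ++ List.replicate q d)) ∈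
      s.1 := by
    rw [← hMs] at hx2 ⊢
    have h1 : M.eval x2 ∈ M.accept := hx2
    change M.eval _ ∈ M.accept
    have h2 : M.eval (List.replicate k' c ++ (List.replicate (n + t) a ++
        ([b] ++ List.replicate q d))) = M.eval x2 := by
      rw [hq]
      unfold DFA.eval
      simp only [List.append_assoc]
      rw [DFA.evalFrom_of_append, DFA.evalFrom_of_append, ht, ← DFA.evalFrom_of_append,
        ← DFA.evalFrom_of_append]
    rw [h2]; exact h1
  have hmem2 : W2 a b c d n t k' q ∈ G.Lang := by rw [hL]; exact W2_mem n htn k' q
  have hmem3 : List.replicate (n - t) a ++ (u ++ ((List.replicate k' c ++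
      (List.replicate (n + t) a ++ ([b] ++ List.replicate q d))) ++
        (v ++ List.replicate q c))) ∈ G.Lang := by
    obtain ⟨z, hz, h⟩ := hmem2
    exact ⟨z, hz, h.tail ⟨s, hs, _, _, _, u, v, rfl, rfl, hx2', huv⟩⟩
  have hF := (inv _ hmem3).2.2
  have hFa : ∀ k m, F a c d n k (List.replicate m a) = 0 := fun k m =>
    F_zero n (fun h => hac (List.eq_of_mem_replicate h).symm)
      (fun h => had (List.eq_of_mem_replicate h).symm) k
  have hFb : ∀ k, F a c d n k [b] = 0 := fun k =>
    F_zero n (by simp [hbc.symm]) (by simp [hbd.symm]) k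
  rw [hu3, hv3] at hF
  have c1 : ∀ m, (List.replicate m c).count a = 0 := fun m => by
    rw [List.count_replicate]; simp [hac.symm]
  have c2 : ∀ m, (List.replicate m d).count a = 0 := fun m => by
    rw [List.count_replicate]; simp [had.symm]
  simp only [F_append, hFa, hFb, F_rep_c n _ _ hac, F_rep_d n _ _ had hcd, List.count_append,
    c1, c2, List.count_replicate_self, List.count_cons_of_ne hab.symm, List.count_nil,
    Nat.zero_add, Nat.add_zero, if_pos (Nat.zero_le n)] at hF
  have h5 : ¬ (n + t ≤ n) := by omega
  rw [if_neg h5, if_neg h5] at hF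
  push_cast at hF
  linarith

end Facts

/-- A finite set of words is regular. -/
lemma regular_of_finite {S : Set (List V)} (hS : S.Finite) :
    Language.IsRegular (show Language V from S) := by
  refine Language.IsRegular.of_finite_range_leftQuotient ?_
  have hT : {y : List V | ∃ x, x ++ y ∈ S}.Finite := by
    have h1 : {y : List V | ∃ x, x ++ y ∈ S} ⊆ ⋃ w ∈ S, {y | y ∈ w.tails} := by
      rintro y ⟨x, hx⟩
      simp only [Set.mem_iUnion]
      exact ⟨x ++ y, hx, by simp [List.mem_tails]⟩
    exact (hS.biUnion fun w _ => w.tails.finite_toSet).subset h1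
  refine hT.finite_subsets.subset ?_
  rintro _ ⟨x, rfl⟩
  intro y hy
  exact ⟨x, hy⟩

lemma S1_suf (a b : V) (n : ℕ) : S1 a b n ∈ SUF V := by
  constructor
  · apply regular_of_finite
    have : S1 a b n ⊆ insert [] ((fun i => List.replicate i a ++ [b]) '' Set.Iic n) := by
      rintro w (h | ⟨i, hi, h⟩)
      · exact Or.inl h
      · exact Or.inr ⟨i, hi, h.symm⟩
    exact (((Set.finite_Iic n).image _).insert _).subset this
  · intro x
    induction x with
    | nil => intro y h; exact h
    | cons z x ih =>
      rintro y (h | ⟨i, hi, h⟩)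
      · exact absurd h (by simp)
      · rcases i with _ | i
        · simp only [List.cons_append, List.replicate_zero, List.nil_append, List.cons.injEq,
            List.append_eq_nil_iff] at h
          exact Or.inl h.2.2
        · simp only [List.cons_append, List.replicate_succ, List.cons.injEq] at h
          exact ih y (Or.inr ⟨i, by omega, h.2⟩)

lemma nil_suf : ({[]} : Set (List V)) ∈ SUF V := by
  refine ⟨regular_of_finite (Set.finite_singleton _), ?_⟩
  intro x y h
  simp only [Set.mem_singleton_iff, List.append_eq_nil_iff] at h ⊢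
  exact h.2

lemma gr_mem [DecidableEq V] (a b c d : V) (n : ℕ) : (gr a b c d n).Lang ∈ IC (SUF V) := by
  refine ⟨gr a b c d n, ?_, rfl⟩
  intro s hs
  simp only [gr, List.mem_cons, List.not_mem_nil, or_false] at hs
  rcases hs with rfl | rfl
  · exact S1_suf a b n
  · exact nil_suf

/-- The image of the language under an embedding of the alphabet. -/
lemma map_lang {W : Type} [DecidableEq V] [DecidableEq W] (ι : V ↪ W) (a b c d : V) (n : ℕ) :
    (List.map ι) '' (gr a b c d n).Lang = (gr (ι a) (ι b) (ι c) (ι d) n).Lang := by
  have hax : List.replicate (2 * n) (ι a) ++ [ι b] =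
      List.map ι (List.replicate (2 * n) a ++ [b]) := by simp
  ext w
  constructor
  · rintro ⟨w, ⟨z, hz, h⟩, rfl⟩
    have hz' : z = List.replicate (2 * n) a ++ [b] := by simpa [gr] using hz
    subst hz'
    refine ⟨_, ?_, h.lift (List.map ι) ?_⟩
    · simp [gr]
    · rintro _ _ ⟨s, hs, x1, x2, x3, u, v, rfl, rfl, hx, huv⟩
      simp only [gr, List.mem_cons, List.not_mem_nil, or_false] at hs
      rcases hs with rfl | rfl
      · refine ⟨_, List.mem_cons_self, x1.map ι, x2.map ι, x3.map ι, u.map ι, v.map ι,
          by simp, by simp, ?_, ?_⟩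
        · rcases hx with rfl | ⟨i, hi, rfl⟩
          · exact Or.inl rfl
          · exact Or.inr ⟨i, hi, by simp⟩
        · simp only [Finset.mem_singleton, Prod.mk.injEq] at huv
          obtain ⟨rfl, rfl⟩ := huv
          simp
      · refine ⟨_, List.mem_cons_of_mem _ List.mem_cons_self, x1.map ι, x2.map ι, x3.map ι,
          u.map ι, v.map ι, by simp, by simp, ?_, ?_⟩
        · have : x2 = [] := hx
          subst this; simp
        · simp only [Finset.mem_insert, Finset.mem_singleton, Prod.mk.injEq] at huv
          rcases huv with ⟨rfl, rfl⟩ | ⟨rfl, rfl⟩ <;> simp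
  · rintro ⟨z, hz, h⟩
    have hz' : z = List.map ι (List.replicate (2 * n) a ++ [b]) := by
      rw [← hax]; simpa [gr] using hz
    subst hz'
    induction h with
    | refl => exact ⟨_, ⟨_, by simp [gr], .refl⟩, rfl⟩
    | tail _ hstep ih =>
      obtain ⟨w, ⟨z, hz2, h⟩, rfl⟩ := ih
      obtain ⟨s, hs, x1, x2, x3, u, v, he, rfl, hx, huv⟩ := hstep
      obtain ⟨w1, w23, rfl, rfl, h23⟩ := List.map_eq_append_iff.1 he
      obtain ⟨w2, w3, rfl, rfl, rfl⟩ := List.map_eq_append_iff.1 h23
      simp only [gr, List.mem_cons, List.not_mem_nil, or_false] at hs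
      rcases hs with rfl | rfl
      · simp only [Finset.mem_singleton, Prod.mk.injEq] at huv
        obtain ⟨rfl, rfl⟩ := huv
        refine ⟨w1 ++ ([c] ++ (w2 ++ ([d] ++ w3))), ⟨z, hz2, h.tail
          ⟨_, List.mem_cons_self, w1, w2, w3, [c], [d], rfl, rfl, ?_, by simp⟩⟩, by simp⟩
        rcases hx with hx | ⟨i, hi, hx⟩
        · exact Or.inl (List.map_eq_nil_iff.1 hx)
        · refine Or.inr ⟨i, hi, List.map_injective_iff.2 ι.injective ?_⟩
          rw [hx]; simp
      · have h0 : w2 = [] := List.map_eq_nil_iff.1 hx
        subst h0
        simp only [Finset.mem_insert, Finset.mem_singleton, Prod.mk.injEq] at huv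
        rcases huv with ⟨rfl, rfl⟩ | ⟨rfl, rfl⟩
        · exact ⟨w1 ++ ([] ++ ([] ++ ([c] ++ w3))), ⟨z, hz2, h.tail
            ⟨_, List.mem_cons_of_mem _ List.mem_cons_self, w1, [], w3, [], [c], rfl, rfl,
              rfl, by simp⟩⟩, by simp⟩
        · exact ⟨w1 ++ ([] ++ ([] ++ ([d, c] ++ w3))), ⟨z, hz2, h.tail
            ⟨_, List.mem_cons_of_mem _ List.mem_cons_self, w1, [], w3, [], [d, c], rfl, rfl,
              rfl, by simp⟩⟩, by simp⟩

/-- **Main theorem.** For every `n` there is a language over a four-letter alphabet which belongs to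
`IC(SUF)` and which does not belong to `IC(REG^Z_n)`; not even when the grammars may use a larger
alphabet. -/
theorem result (n : ℕ) : ∃ L : Set (List (Fin 4)), L ∈ IC (SUF (Fin 4)) ∧
    L ∉ IC (REGZ (Fin 4) n) ∧
    ∀ (W : Type) (ι : Fin 4 ↪ W), (List.map ι) '' L ∉ IC (REGZ W n) := by
  have key : ∀ (W : Type) (ι : Fin 4 ↪ W),
      (List.map ι) '' (gr (0 : Fin 4) 1 2 3 n).Lang ∉ IC (REGZ W n) := by
    classical
    rintro W ι ⟨G, hG, hL⟩
    rw [map_lang] at hL
    exact not_states n (fun h => absurd (ι.injective h) (by decide))
      (fun h => absurd (ι.injective h) (by decide)) (fun h => absurd (ι.injective h) (by decide))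
      (fun h => absurd (ι.injective h) (by decide)) (fun h => absurd (ι.injective h) (by decide))
      (fun h => absurd (ι.injective h) (by decide)) G hG hL
  refine ⟨(gr (0 : Fin 4) 1 2 3 n).Lang, gr_mem _ _ _ _ n, ?_, key⟩
  have h1 := key (Fin 4) (Function.Embedding.refl _)
  have h2 : List.map ⇑(Function.Embedding.refl (Fin 4)) = id := by
    funext w
    change List.map id w = w
    simp
  rwa [h2, Set.image_id] at h1

end Pool.Agent.Results.MP_47ab97_lc.SuffixNotStates
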